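import Mathlib
import Pool.Agent.H.MP_970e84_lc.Main

set_option autoImplicit false

namespace Pool.Agent.Results.MP_970e84_lc.Exists

open Pool.Agent.H.MP_970e84_lc FirstOrder

theorem result : ∃ (L L' : FirstOrder.Language.{0, 0}) (M M' : Type) (_ : L.Structure M)
    (_ : L'.Structure M'), Fraisse L M ∧ Fraisse L' M' ∧
    (∃ e : (M ≃[L] M) ≃ (M' ≃[L'] M'), (∀ g h, e (g.comp h) = (e g).comp (e h)) ∧
      @Continuous _ _ (autTop L M) (autTop L' M') e ∧
      @Continuous _ _ (autTop L' M') (autTop L M) e.symm) ∧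
    FPT L M ∧ ¬ FPT L' M' :=
  ⟨FirstOrder.Language.empty, lang, ℕ, N, inferInstance, inferInstance, fraisse_pure, fraisse_N,
    ⟨iso, iso_comp, cont1, cont2⟩, fpt_pure, not_fpt⟩

end Pool.Agent.Results.MP_970e84_lc.Exists
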